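import Pool.Agent.H.MP_7f80d9_lc.A
import Pool.Agent.Lib.helper26.CXFpt

namespace Pool.Agent.Results.MP_7f80d9_lc.Claw
open Pool.Agent.Lib.CX Pool.Agent.H.MP_7f80d9_lc SimpleGraph

def Clique (a : Gr × ℕ) : Prop := ∃ s, a.1.G.IsNClique a.2 s

def ClawC (a : Gr × ℕ) : Prop :=
  Contr (fun _ G => ¬ (completeBipartiteGraph (Fin 1) (Fin 3)).IsIndContained G) a.2 _ a.1.G

instance (m N x) : Decidable (In m N x) := by unfold In; infer_instance
instance (b x y) : Decidable (rel b x y) := by unfold rel; infer_instance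

def kk (a : Gr × ℕ) : ℕ := min a.2 (a.1.n + 1)
def NN (a : Gr × ℕ) : ℕ := a.1.n + 4 * (2 * ((kk a + 2) * (kk a + 2)) + (kk a + 2)) + 1
def vl (a : Gr × ℕ) (x : ℕ × ℕ × ℕ × ℕ) : Bool :=
  decide (kk a ≤ x.1 ∨ kk a ≤ x.2.1 ∨ (x.1 = x.2.1 ∧ x.2.2.1 < a.1.n) ∨ a.1.adjB x.2.2.1 x.2.2.2 = true)
def vs (a : Gr × ℕ) : List T := (List.range 5 ×ˢ List.range 2 ×ˢ List.range (kk a + 2) ×ˢ List.range (kk a + 2) ×ˢ
  List.range (NN a) ×ˢ List.range (NN a)).filter fun x => In (kk a + 2) (NN a) x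
def red (a : Gr × ℕ) : Gr × ℕ := (mkGr (vs a) ((vs a ×ˢ vs a).filter fun e => rel (vl a e.1.2.2) e.1 e.2),
  2 * ((kk a + 2) * (kk a + 2)) + (kk a + 2))

theorem mem_vs {a x} : x ∈ vs a ↔ In (kk a + 2) (NN a) x := by
  obtain ⟨k, t, i, j, u, v⟩ := x
  simp only [vs, List.mem_filter, List.mem_product, List.mem_range, decide_eq_true_eq]
  exact ⟨fun h => h.2, fun h => ⟨h.1, h⟩⟩

theorem pt_red : PT red := by
  have h0 : PT kk := by unfold kk; fun_prop
  have h0' : PB kk := (show PB fun a : Gr × ℕ => a.1.n + 1 by fun_prop).mono fun a => min_le_right _ _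
  have h1 : PT NN := by unfold NN; fun_prop
  have h1' : PB NN := by unfold NN; fun_prop
  have h2 : PT fun q : (Gr × ℕ) × ℕ × ℕ × ℕ × ℕ => vl q.1 q.2 := by unfold vl; fun_prop
  have h3 : PT fun q : (Gr × ℕ) × T => decide (In (kk q.1 + 2) (NN q.1) q.2) := by unfold In; fun_prop
  have h4 : PT vs := by unfold vs; fun_prop
  have h5 : PT fun q : Bool × T × T => decide (rel q.1 q.2.1 q.2.2) := by unfold rel; fun_prop
  have h6 : PT fun q : (Gr × ℕ) × T × T => decide (rel (vl q.1 q.2.1.2.2) q.2.1 q.2.2) :=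
    h5.comp (g := fun q : (Gr × ℕ) × T × T => (vl q.1 q.2.1.2.2, q.2.1, q.2.2))
      ((h2.comp (g := fun q : (Gr × ℕ) × T × T => (q.1, q.2.1.2.2)) (by fun_prop)).pair (by fun_prop))
  unfold red; fun_prop

def iso (a : Gr × ℕ) : (red a).1.G ≃g HG (kk a + 2) (NN a) (vl a) :=
  (mkGrIso _ _).trans ⟨Equiv.subtypeEquivRight fun _ => mem_vs, fun {x y} => by
    have h1 : x.1 ∈ vs a := x.2
    have h2 : y.1 ∈ vs a := y.2
    simp [adj, h1, h2, List.mem_product]⟩

theorem spec (a : Gr × ℕ) : Clique a ↔ ClawC (red a) := by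
  classical
  have := Finite.of_equiv _ (iso a).toEquiv
  have e : ClawC (red a) ↔ ∃ g : ℕ → ℕ, (∀ i < kk a + 2, g i < NN a) ∧
      ∀ i < kk a + 2, ∀ j < kk a + 2, vl a (i, j, g i, g j) = true := by
    refine ⟨fun h => ?_, fun ⟨g, h1, h2⟩ => (complete g h1 h2).iso (Her.free _) (iso a).symm⟩
    obtain ⟨g, h⟩ := sound (by omega) (by unfold NN; omega) (Contr.iso (Her.free _) (iso a) h)
    refine ⟨fun i => if i < kk a then g i else 0, fun i hi => ?_, fun i hi j hj => ?_⟩
    · have := h i hi i hi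
      simp only [vl, Gr.adjB, decide_eq_true_eq, true_and, NN] at this ⊢
      split_ifs <;> omega
    · have := h i hi j hj
      simp only [vl, decide_eq_true_eq] at this ⊢
      split_ifs <;> first | exact this | omega
  rw [e]
  constructor
  · rintro ⟨s, hs⟩
    have hk : kk a = a.2 := min_eq_left (by have := s.card_le_univ; rw [hs.2, Fintype.card_fin] at this; omega)
    let φ := s.orderEmbOfFin hs.2
    refine ⟨fun i => if h : i < a.2 then (φ ⟨i, h⟩).1 else 0, fun i _ => ?_, fun i _ j _ => ?_⟩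
    · simp only [NN]; split_ifs with h
      · have := (φ ⟨i, h⟩).2; omega
      · omega
    · simp only [vl, hk, decide_eq_true_eq]
      split_ifs with h1 h2
      · by_cases e : i = j
        · exact .inr (.inr (.inl ⟨e, (φ _).2⟩))
        · exact .inr (.inr (.inr ((Gr.adjB_iff ..).2 (hs.1 (s.orderEmbOfFin_mem ..) (s.orderEmbOfFin_mem ..)
            fun h => e (by simpa using φ.injective h)))))
      all_goals omega
  · rintro ⟨g, -, h⟩
    have h1 : ∀ i : Fin (kk a), g i < a.1.n := fun i => by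
      have := h i (by omega) i (by omega)
      simp only [vl, Gr.adjB, decide_eq_true_eq, true_and] at this; omega
    have h2 : ∀ i j : Fin (kk a), i ≠ j → a.1.G.Adj ⟨_, h1 i⟩ ⟨_, h1 j⟩ := fun i j ne => by
      have := h i (by omega) j (by omega)
      simp only [vl, decide_eq_true_eq] at this
      have n2 : i.1 ≠ j.1 := fun e => ne (Fin.ext e)
      exact (Gr.adjB_iff ..).1 (by simpa [n2, i.2.not_ge, j.2.not_ge] using this)
    have h3 : Function.Injective fun i : Fin (kk a) => (⟨_, h1 i⟩ : Fin a.1.n) := fun i j e =>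
      by_contra fun ne => (h2 i j ne).ne e
    have h4 := Fintype.card_le_of_injective _ h3
    simp only [Fintype.card_fin] at h4
    refine ⟨Finset.univ.image fun i : Fin (kk a) => ⟨_, h1 i⟩, ?_, ?_⟩
    · simp only [Finset.coe_image, Finset.coe_univ, Set.image_univ]
      rintro _ ⟨i, rfl⟩ _ ⟨j, rfl⟩ ne
      exact h2 i j fun e => ne (by rw [e])
    · rw [Finset.card_image_of_injective _ h3, Finset.card_univ, Fintype.card_fin]
      unfold kk at h4 ⊢; omega

theorem result :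
    (∃ R : Gr × ℕ → Gr × ℕ, PT R ∧ ∀ a, (Clique a ↔ ClawC (R a)) ∧ (R a).2 ≤ 3 * ((a.2 + 2) * (a.2 + 2))) ∧
    (FPT ClawC Prod.snd → FPT Clique Prod.snd) := by
  have h : ∀ a, (red a).2 ≤ 3 * ((a.2 + 2) * (a.2 + 2)) := fun a => by
    have h1 : kk a + 2 ≤ a.2 + 2 := by unfold kk; omega
    have := Nat.mul_le_mul h1 h1
    simp only [red]; nlinarith
  have c : Primrec fun k : ℕ => k + 2 := Primrec.nat_add.comp Primrec.id (Primrec.const 2)
  exact ⟨⟨red, pt_red, fun a => ⟨spec a, h a⟩⟩, FPT.red (g := fun k => 3 * ((k + 2) * (k + 2))) pt_red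
    (Primrec.nat_mul.comp (Primrec.const 3) (Primrec.nat_mul.comp c c)).to_comp spec h⟩

end Pool.Agent.Results.MP_7f80d9_lc.Claw
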